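import Mathlib

/-! Rainbow cliques from counting conditions (Hall's theorem). -/

set_option autoImplicit false
set_option linter.unusedSectionVars false

namespace Pool.Agent.W188.Tpl

open Finset

variable {V : Type*} {k : ℕ}

/-- number of pairs of entries of `x` with at most `j` colours -/
def cnt (M : V → V → Finset (Fin k)) (j : ℕ) {t : ℕ} (x : Fin t → V) : ℕ :=
  ∑ a : Fin t, ∑ b : Fin t, if a < b ∧ (M (x a) (x b)).card ≤ j then 1 else 0

/-- number of pairs of entries of `x` without the colour `c` -/
def miss (M : V → V → Finset (Fin k)) (c : Fin k) {t : ℕ} (x : Fin t → V) : ℕ :=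
  ∑ a : Fin t, ∑ b : Fin t, if a < b ∧ c ∉ M (x a) (x b) then 1 else 0

/-- the tuple spans a rainbow clique -/
def Rbw (M : V → V → Finset (Fin k)) {t : ℕ} (v : Fin t → V) : Prop :=
  ∃ φ : {p : Fin t × Fin t // p.1 < p.2} → Fin k, Function.Injective φ ∧
    ∀ p, φ p ∈ M (v p.1.1) (v p.1.2)

theorem card_pairs (t : ℕ) : 2 * Fintype.card {p : Fin t × Fin t // p.1 < p.2} = t * (t - 1) := by
  rw [Fintype.card_subtype]
  have h1 : (univ.filter fun p : Fin t × Fin t => p.1 < p.2).card +
      (univ.filter fun p : Fin t × Fin t => p.2 < p.1).card = t * (t - 1) := by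
    have e : (univ : Finset (Fin t)).offDiag.card = t * (t - 1) := by
      rw [offDiag_card]; simp [Nat.mul_sub]
    rw [← e, ← card_union_of_disjoint]
    · congr 1
      ext p
      simp [lt_or_lt_iff_ne]
    · rw [disjoint_filter]
      intro p _ h
      exact not_lt.mpr h.le
  have h2 : (univ.filter fun p : Fin t × Fin t => p.2 < p.1).card =
      (univ.filter fun p : Fin t × Fin t => p.1 < p.2).card := by
    refine card_bij (fun p _ => (p.2, p.1)) ?_ ?_ ?_
    · intro p hp; simpa using hp
    · intro p _ q _ h
      simp only [Prod.mk.injEq] at h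
      exact Prod.ext h.2 h.1
    · intro p hp
      exact ⟨(p.2, p.1), by simpa using hp, rfl⟩
  omega

theorem cnt_eq_card (M : V → V → Finset (Fin k)) (j : ℕ) {t : ℕ} (x : Fin t → V) :
    cnt M j x = (univ.filter fun p : {p : Fin t × Fin t // p.1 < p.2} =>
      (M (x p.1.1) (x p.1.2)).card ≤ j).card := by
  unfold cnt
  rw [← Fintype.sum_prod_type', ← card_filter]
  refine (card_bij (fun p _ => p.1) ?_ ?_ ?_).symm
  · intro p hp
    simp only [mem_filter, mem_univ, true_and] at hp ⊢
    exact ⟨p.2, hp⟩
  · intro p _ q _ h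
    exact Subtype.ext h
  · intro p hp
    simp only [mem_filter, mem_univ, true_and] at hp
    exact ⟨⟨p, hp.1⟩, by simpa using hp.2, rfl⟩

theorem miss_eq_card (M : V → V → Finset (Fin k)) (c : Fin k) {t : ℕ} (x : Fin t → V) :
    miss M c x = (univ.filter fun p : {p : Fin t × Fin t // p.1 < p.2} =>
      c ∉ M (x p.1.1) (x p.1.2)).card := by
  unfold miss
  rw [← Fintype.sum_prod_type', ← card_filter]
  refine (card_bij (fun p _ => p.1) ?_ ?_ ?_).symm
  · intro p hp
    simp only [mem_filter, mem_univ, true_and] at hp ⊢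
    exact ⟨p.2, hp⟩
  · intro p _ q _ h
    exact Subtype.ext h
  · intro p hp
    simp only [mem_filter, mem_univ, true_and] at hp
    exact ⟨⟨p, hp.1⟩, by simpa using hp.2, rfl⟩

/-- Hall's theorem. -/
theorem rbw_of_counts (M : V → V → Finset (Fin k)) {t : ℕ} (hk : 2 * k = t * (t - 1))
    (v : Fin t → V) (h1 : ∀ j, 2 * j ≤ k → cnt M j v ≤ j) (h2 : ∀ c, 2 * miss M c v ≤ k) :
    Rbw M v := by
  classical
  have := (Finset.all_card_le_biUnion_card_iff_exists_injective
    (fun p : {p : Fin t × Fin t // p.1 < p.2} => M (v p.1.1) (v p.1.2))).mp ?_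
  · obtain ⟨f, hf, hf'⟩ := this
    exact ⟨f, hf, hf'⟩
  intro F
  by_contra hlt
  rw [not_le] at hlt
  set C := F.biUnion fun p => M (v p.1.1) (v p.1.2) with hC
  have hFk : F.card ≤ k := by
    have a1 := card_le_univ F
    have a2 := card_pairs t
    omega
  have hFc : F.card ≤ cnt M (F.card - 1) v := by
    rw [cnt_eq_card]
    refine card_le_card fun p hp => ?_
    simp only [mem_filter, mem_univ, true_and]
    have : M (v p.1.1) (v p.1.2) ⊆ C := by
      intro c hc
      rw [hC, mem_biUnion]
      exact ⟨p, hp, hc⟩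
    have := card_le_card this
    omega
  by_cases hj : 2 * (F.card - 1) ≤ k
  · have := h1 _ hj
    omega
  · -- some colour is missing on all pairs of `F`
    obtain ⟨c, hc⟩ : ∃ c : Fin k, c ∉ C := by
      by_contra hall
      push Not at hall
      have : C = univ := eq_univ_iff_forall.mpr hall
      rw [this, card_univ, Fintype.card_fin] at hlt
      omega
    have h3 := h2 c
    have h4 : F.card ≤ miss M c v := by
      rw [miss_eq_card]
      refine card_le_card fun p hp => ?_
      simp only [mem_filter, mem_univ, true_and]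
      intro hcm
      exact hc (mem_biUnion.mpr ⟨p, hp, hcm⟩)
    omega

/-- the tuple is suitable -/
structure Suit (M : V → V → Finset (Fin k)) {s : ℕ} (x : Fin s → V) : Prop where
  cnt_le : ∀ j, 2 * j ≤ k → cnt M j x ≤ j - 2
  miss_le : ∀ c, 2 * (miss M c x + 2 * s + 2) ≤ k

theorem cnt_cons (M : V → V → Finset (Fin k)) (j : ℕ) {t : ℕ} (z : V) (x : Fin t → V) :
    cnt M j (Fin.cons z x : Fin (t + 1) → V) =
      (∑ b, if (M z (x b)).card ≤ j then 1 else 0) + cnt M j x := by
  unfold cnt
  rw [Fin.sum_univ_succ]
  simp only [Fin.sum_univ_succ, Fin.cons_zero, Fin.cons_succ, lt_irrefl, false_and, if_false,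
    zero_add, Fin.succ_pos, true_and, Fin.not_lt_zero, Fin.succ_lt_succ_iff]

theorem miss_cons (M : V → V → Finset (Fin k)) (c : Fin k) {t : ℕ} (z : V) (x : Fin t → V) :
    miss M c (Fin.cons z x : Fin (t + 1) → V) =
      (∑ b, if c ∉ M z (x b) then 1 else 0) + miss M c x := by
  unfold miss
  rw [Fin.sum_univ_succ]
  simp only [Fin.sum_univ_succ, Fin.cons_zero, Fin.cons_succ, lt_irrefl, false_and, if_false,
    zero_add, Fin.succ_pos, true_and, Fin.not_lt_zero, Fin.succ_lt_succ_iff]

/-- generic count for an updated tuple -/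
theorem gen_update (T : V → V → Prop) [DecidableRel T] (hT : ∀ x y, T x y → T y x) {t : ℕ}
    (x : Fin t → V) (q : Fin t) (z : V) :
    (∑ a : Fin t, ∑ b : Fin t, if a < b ∧ T (Function.update x q z a) (Function.update x q z b)
      then 1 else 0) ≤ (∑ a : Fin t, ∑ b : Fin t, if a < b ∧ T (x a) (x b) then 1 else 0) +
      ∑ b : Fin t, if b ≠ q ∧ T z (x b) then 1 else 0 := by
  classical
  have key : ∀ a b : Fin t,
      (if a < b ∧ T (Function.update x q z a) (Function.update x q z b) then 1 else 0) ≤
      (if a < b ∧ T (x a) (x b) then 1 else 0) +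
      ((if a = q then (if q < b ∧ T z (x b) then 1 else 0) else 0) +
      (if b = q then (if a < q ∧ T z (x a) then 1 else 0) else 0)) := by
    intro a b
    by_cases ha : a = q
    · subst ha
      by_cases hb : b = a
      · subst hb; simp
      · simp only [Function.update_self, Function.update_of_ne hb, if_true, if_neg hb]
        split_ifs <;> simp_all
    · by_cases hb : b = q
      · subst hb
        simp only [Function.update_self, Function.update_of_ne ha, if_true, if_neg ha]
        by_cases h : a < b ∧ T (x a) z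
        · rw [if_pos h, if_pos (c := a < b ∧ T z (x a)) ⟨h.1, hT _ _ h.2⟩]
          omega
        · rw [if_neg h]; exact Nat.zero_le _
      · simp only [Function.update_of_ne ha, Function.update_of_ne hb, if_neg ha, if_neg hb]
        omega
  calc _ ≤ ∑ a : Fin t, ∑ b : Fin t, ((if a < b ∧ T (x a) (x b) then 1 else 0) +
      ((if a = q then (if q < b ∧ T z (x b) then 1 else 0) else 0) +
      (if b = q then (if a < q ∧ T z (x a) then 1 else 0) else 0))) :=
        sum_le_sum fun a _ => sum_le_sum fun b _ => key a b
    _ = (∑ a : Fin t, ∑ b : Fin t, if a < b ∧ T (x a) (x b) then 1 else 0) +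
        ((∑ b : Fin t, if q < b ∧ T z (x b) then 1 else 0) +
        ∑ a : Fin t, if a < q ∧ T z (x a) then 1 else 0) := by
        simp only [sum_add_distrib]
        congr 2
        · rw [sum_comm]
          refine sum_congr rfl fun b _ => ?_
          simp
        · refine sum_congr rfl fun b _ => ?_
          simp
    _ ≤ _ := by
        rw [← sum_add_distrib]
        refine Nat.add_le_add_left (sum_le_sum fun b _ => ?_) _
        by_cases hT' : T z (x b)
        · rcases lt_trichotomy b q with h | h | h
          · simp [hT', h, h.ne, not_lt.mpr h.le]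
          · simp [h]
          · simp [hT', h, h.ne', not_lt.mpr h.le]
        · simp [hT']

end Pool.Agent.W188.Tpl
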