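import Pool.Agent.W188.Tpl.Use

/-! The main inequality. -/

set_option autoImplicit false
set_option linter.unusedSectionVars false

namespace Pool.Agent.W188.Tpl

open Finset

variable {V : Type*} {k : ℕ}

/-- the excess of a pair over the Turan density -/
def G (M : V → V → Finset (Fin k)) (s : ℕ) (x y : V) : ℤ := s * ((M x y).card : ℤ) - k * (s - 1)

theorem G_symm (M : V → V → Finset (Fin k)) (hM : ∀ x y, M x y = M y x) (s : ℕ) (x y : V) :
    G M s x y = G M s y x := by unfold G; rw [hM]

theorem sum_G_tuple (M : V → V → Finset (Fin k)) {s : ℕ} (x : Fin s → V) (z : V) :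
    ∑ a, G M s z (x a) = s * ((k : ℤ) - star M z x) := by
  have h : ∀ a, (((k - (M z (x a)).card : ℕ)) : ℤ) = k - (M z (x a)).card := fun a => by
    rw [Nat.cast_sub (card_le_k M z (x a))]
  unfold G star
  push_cast [h]
  rw [sum_sub_distrib, sum_sub_distrib, ← mul_sum]
  simp
  ring

/-- the quadratic form -/
def SG (M : V → V → Finset (Fin k)) (s : ℕ) (X Y : Finset V) : ℤ := ∑ x ∈ X, ∑ y ∈ Y, G M s x y

theorem SG_comm (M : V → V → Finset (Fin k)) (hM : ∀ x y, M x y = M y x) (s : ℕ) (X Y : Finset V) :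
    SG M s X Y = SG M s Y X := by
  unfold SG
  rw [sum_comm]
  exact sum_congr rfl fun _ _ => sum_congr rfl fun _ _ => G_symm M hM s _ _

/-- A set whose vertices have small star deficit has non-positive excess. -/
theorem small_part {s : ℕ} (hs : 1 ≤ s) (hk : 2 * k = (s + 1) * s) (h3 : 3 ≤ k)
    (M : V → V → Finset (Fin k)) (hM : ∀ x y, M x y = M y x) (hd : ∀ x, M x x = ∅)
    (hno : ∀ v : Fin (s + 1) → V, ¬ Rbw M v) (x : Fin s → V) (hx : Suit M x)
    (A : Finset V) (hA : ∀ z ∈ A, 4 * star M z x < 5 * k) : SG M s A A ≤ 0 := by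
  classical
  have hq : ∀ z : V, ∃ q : Fin s, 4 * star M z x < 5 * k → (M z (x q)).card = 0 := by
    intro z
    by_cases hz : 4 * star M z x < 5 * k
    · obtain ⟨q, hq⟩ := exists_empty hk h3 M hno x hx z hz
      exact ⟨q, fun _ => hq⟩
    · exact ⟨⟨0, hs⟩, fun h => absurd h hz⟩
  choose q hq using hq
  -- pairs of the same type are empty
  have hpair : ∀ z ∈ A, ∀ z' ∈ A, ((M z z').card : ℤ) ≤ k - (if q z = q z' then (k : ℤ) else 0) := by
    intro z hz z' hz'
    split_ifs with h
    · have : (M z z').card = 0 := by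
        by_contra hne
        refine hno _ (rbw_update hk M hM x hx z z' (q z) (hA z hz) (hA z' hz') (hq z (hA z hz)) ?_ hne)
        rw [h]; exact hq z' (hA z' hz')
      rw [this]; simp
    · have := card_le_k M z z'
      simpa using this
  have hcs : ((A.card : ℤ)) ^ 2 ≤ s * ∑ z ∈ A, ∑ z' ∈ A, (if q z = q z' then (1 : ℤ) else 0) := by
    have e1 : (A.card : ℤ) = ∑ c : Fin s, ((A.filter fun z => q z = c).card : ℤ) := by
      rw [card_eq_sum_card_fiberwise (f := q) (t := univ) (fun _ _ => mem_coe.mpr (mem_univ _))]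
      push_cast
      rfl
    have e2 : ∑ z ∈ A, ∑ z' ∈ A, (if q z = q z' then (1 : ℤ) else 0) =
        ∑ c : Fin s, ((A.filter fun z => q z = c).card : ℤ) ^ 2 := by
      have : ∀ c : Fin s, ((A.filter fun z => q z = c).card : ℤ) ^ 2 =
          ∑ z ∈ A, ∑ z' ∈ A, (if q z = c then (1 : ℤ) else 0) * (if q z' = c then 1 else 0) := by
        intro c
        rw [pow_two, card_filter]
        push_cast
        rw [sum_mul_sum]
      symm
      calc ∑ c : Fin s, ((A.filter fun z => q z = c).card : ℤ) ^ 2 = ∑ c : Fin s, ∑ z ∈ A, ∑ z' ∈ A,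
            (if q z = c then (1 : ℤ) else 0) * (if q z' = c then 1 else 0) :=
            sum_congr rfl fun c _ => this c
        _ = ∑ z ∈ A, ∑ c : Fin s, ∑ z' ∈ A,
            (if q z = c then (1 : ℤ) else 0) * (if q z' = c then 1 else 0) := sum_comm
        _ = ∑ z ∈ A, ∑ z' ∈ A, ∑ c : Fin s,
            (if q z = c then (1 : ℤ) else 0) * (if q z' = c then 1 else 0) :=
            sum_congr rfl fun _ _ => sum_comm
        _ = _ := by
            refine sum_congr rfl fun z _ => sum_congr rfl fun z' _ => ?_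
            rw [sum_eq_single (q z)]
            · simp [eq_comm]
            · intro c _ hc
              simp [hc.symm]
            · simp
    rw [e1, e2]
    have := sq_sum_le_card_mul_sum_sq (s := (univ : Finset (Fin s)))
      (f := fun c => ((A.filter fun z => q z = c).card : ℤ))
    simpa using this
  unfold SG G
  have h4 : ∑ z ∈ A, ∑ z' ∈ A, ((M z z').card : ℤ) ≤
      k * (A.card : ℤ) ^ 2 - k * ∑ z ∈ A, ∑ z' ∈ A, (if q z = q z' then (1 : ℤ) else 0) := by
    calc _ ≤ ∑ z ∈ A, ∑ z' ∈ A, ((k : ℤ) - (if q z = q z' then (k : ℤ) else 0)) :=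
          sum_le_sum fun z hz => sum_le_sum fun z' hz' => hpair z hz z' hz'
      _ = _ := by
          simp only [sum_sub_distrib, mul_sum]
          simp
          ring
  have h5 : ∑ z ∈ A, ∑ z' ∈ A, ((s : ℤ) * ((M z z').card : ℤ) - k * (s - 1)) =
      s * ∑ z ∈ A, ∑ z' ∈ A, ((M z z').card : ℤ) - k * (s - 1) * (A.card : ℤ) ^ 2 := by
    simp only [sum_sub_distrib, ← mul_sum]
    simp
    ring
  rw [h5]
  have hs0 : (0 : ℤ) ≤ s := by positivity
  have hk0 : (0 : ℤ) ≤ k := by positivity
  have h6 := mul_le_mul_of_nonneg_left h4 hs0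
  have h7 := mul_le_mul_of_nonneg_left hcs hk0
  nlinarith

theorem G_le (M : V → V → Finset (Fin k)) (s : ℕ) (x y : V) : G M s x y ≤ k := by
  unfold G
  have h : ((M x y).card : ℤ) ≤ k := by exact_mod_cast card_le_k M x y
  have hs : (0 : ℤ) ≤ s := by positivity
  nlinarith

/-- The cross estimate: the star deficits of the vertices of `A` pay for the excess of `A`. -/
theorem cross {s : ℕ} (hs : 1 ≤ s) (hk : 2 * k = (s + 1) * s) (h3 : 3 ≤ k)
    (M : V → V → Finset (Fin k)) (hM : ∀ x y, M x y = M y x) (hd : ∀ x, M x x = ∅)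
    (hno : ∀ v : Fin (s + 1) → V, ¬ Rbw M v) (x : Fin s → V) (hx : Suit M x) (A : Finset V) :
    8 * (A.card : ℤ) * ∑ z ∈ A, ∑ a, G M s z (x a) ≤ - (s * SG M s A A) := by
  classical
  set As := A.filter fun z => 4 * star M z x < 5 * k with hAs
  set Ab := A.filter fun z => ¬ 4 * star M z x < 5 * k with hAb
  have hsplit : As ∪ Ab = A := filter_union_filter_not_eq _ _
  have hdisj : Disjoint As Ab := disjoint_filter_filter_not _ _ _
  have hcard : (As.card : ℤ) + Ab.card = A.card := by
    rw [← hsplit, card_union_of_disjoint hdisj]; push_cast; rfl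
  have hsmall : SG M s As As ≤ 0 :=
    small_part hs hk h3 M hM hd hno x hx As fun z hz => (mem_filter.mp hz).2
  -- excess of A
  have hAA : SG M s A A ≤ 2 * k * A.card * Ab.card := by
    have e : SG M s A A = SG M s As As + SG M s As Ab + SG M s Ab A := by
      have : SG M s A A = SG M s As A + SG M s Ab A := by
        unfold SG
        rw [← sum_union hdisj, hsplit]
      rw [this]
      congr 1
      unfold SG
      rw [← sum_add_distrib]
      refine sum_congr rfl fun z _ => ?_
      rw [← sum_union hdisj, hsplit]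
    have b1 : SG M s As Ab ≤ k * (As.card * Ab.card) := by
      unfold SG
      calc _ ≤ ∑ _x ∈ As, ∑ _y ∈ Ab, (k : ℤ) := sum_le_sum fun _ _ => sum_le_sum fun _ _ => G_le M s _ _
        _ = _ := by simp; ring
    have b2 : SG M s Ab A ≤ k * (Ab.card * A.card) := by
      unfold SG
      calc _ ≤ ∑ _x ∈ Ab, ∑ _y ∈ A, (k : ℤ) := sum_le_sum fun _ _ => sum_le_sum fun _ _ => G_le M s _ _
        _ = _ := by simp; ring
    have b3 : (As.card : ℤ) ≤ A.card := by
      have : (0 : ℤ) ≤ Ab.card := by positivity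
      linarith
    have b4 : (k : ℤ) * (As.card * Ab.card) ≤ k * (A.card * Ab.card) := by gcongr
    nlinarith
  -- deficits
  have hdef : 4 * ∑ z ∈ A, ∑ a, G M s z (x a) ≤ - (s * k * Ab.card) := by
    have e : ∑ z ∈ A, ∑ a, G M s z (x a) =
        ∑ z ∈ As, ∑ a, G M s z (x a) + ∑ z ∈ Ab, ∑ a, G M s z (x a) := by
      rw [← sum_union hdisj, hsplit]
    have c1 : ∑ z ∈ As, ∑ a, G M s z (x a) ≤ 0 := by
      refine sum_nonpos fun z _ => ?_
      rw [sum_G_tuple]
      have := star_ge hk h3 M hno x hx z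
      have h' : (k : ℤ) ≤ star M z x := by exact_mod_cast this
      have hs0 : (0 : ℤ) ≤ s := by positivity
      nlinarith
    have c2 : 4 * ∑ z ∈ Ab, ∑ a, G M s z (x a) ≤ ∑ _z ∈ Ab, (-(s * k : ℤ)) := by
      rw [mul_sum]
      refine sum_le_sum fun z hz => ?_
      rw [sum_G_tuple]
      have := (mem_filter.mp hz).2
      have h' : (5 * k : ℤ) ≤ 4 * star M z x := by
        have : 5 * k ≤ 4 * star M z x := not_lt.mp this
        exact_mod_cast this
      have hs0 : (0 : ℤ) ≤ s := by positivity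
      nlinarith
    rw [e]
    have c3 : ∑ _z ∈ Ab, (-(s * k : ℤ)) = - (s * k * Ab.card) := by simp; ring
    rw [c3] at c2
    linarith
  have hA0 : (0 : ℤ) ≤ A.card := by positivity
  have hs0 : (0 : ℤ) ≤ s := by positivity
  have h1 := mul_le_mul_of_nonneg_left hdef (show (0 : ℤ) ≤ 2 * A.card by positivity)
  have h2 := mul_le_mul_of_nonneg_left hAA hs0
  nlinarith

theorem sum_tuple_nonpos {s : ℕ} (hk : 2 * k = (s + 1) * s) (h3 : 3 ≤ k)
    (M : V → V → Finset (Fin k)) (hno : ∀ v : Fin (s + 1) → V, ¬ Rbw M v) (x : Fin s → V)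
    (hx : Suit M x) (z : V) : ∑ a, G M s z (x a) ≤ 0 := by
  rw [sum_G_tuple]
  have := star_ge hk h3 M hno x hx z
  have h' : (k : ℤ) ≤ star M z x := by exact_mod_cast this
  have hs0 : (0 : ℤ) ≤ s := by positivity
  nlinarith

/-- the set of entries of the tuples of a family -/
def cover [DecidableEq V] {s : ℕ} (F : Finset (Fin s → V)) : Finset V := F.biUnion fun x => univ.image x

theorem sum_cover [DecidableEq V] {s : ℕ} (F : Finset (Fin s → V))
    (hinj : ∀ x ∈ F, Function.Injective x)
    (hdis : ∀ x ∈ F, ∀ y ∈ F, x ≠ y → Disjoint (univ.image x) (univ.image y)) (f : V → ℤ) :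
    ∑ z ∈ cover F, f z = ∑ x ∈ F, ∑ a, f (x a) := by
  unfold cover
  rw [sum_biUnion (fun x hx y hy h => hdis x hx y hy h)]
  refine sum_congr rfl fun x hx => ?_
  rw [sum_image (fun a _ b _ h => hinj x hx h)]

theorem card_cover [DecidableEq V] {s : ℕ} (F : Finset (Fin s → V))
    (hinj : ∀ x ∈ F, Function.Injective x)
    (hdis : ∀ x ∈ F, ∀ y ∈ F, x ≠ y → Disjoint (univ.image x) (univ.image y)) :
    (cover F).card = s * F.card := by
  unfold cover
  rw [card_biUnion (fun x hx y hy h => hdis x hx y hy h)]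
  rw [sum_congr rfl fun x hx => by rw [card_image_of_injective _ (hinj x hx), card_univ,
    Fintype.card_fin]]
  simp [mul_comm]

/-- The conclusion of the counting argument. -/
theorem ineq [Fintype V] [DecidableEq V] {s : ℕ} (hs : 1 ≤ s) (hk : 2 * k = (s + 1) * s) (h3 : 3 ≤ k)
    (M : V → V → Finset (Fin k)) (hM : ∀ x y, M x y = M y x) (hd : ∀ x, M x x = ∅)
    (hno : ∀ v : Fin (s + 1) → V, ¬ Rbw M v) (F : Finset (Fin s → V))
    (hF : ∀ x ∈ F, Suit M x)
    (hdis : ∀ x ∈ F, ∀ y ∈ F, x ≠ y → Disjoint (univ.image x) (univ.image y)) :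
    SG M s univ univ ≤ SG M s (univ \ cover F) (univ \ cover F) ∧
    (4 * (univ \ cover F).card ≤ (cover F).card → SG M s univ univ ≤ 0) := by
  set U := cover F with hU
  set A := univ \ U with hA
  have hinj : ∀ x ∈ F, Function.Injective x := fun x hx => suit_inj M hd x (hF x hx)
  have hsum := sum_cover F hinj hdis
  have hcard := card_cover F hinj hdis
  have hdisj : Disjoint A U := sdiff_disjoint
  have hunion : A ∪ U = univ := by rw [hA, sdiff_union_of_subset (subset_univ _)]
  have e1 : SG M s univ univ = SG M s U U + 2 * SG M s A U + SG M s A A := by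
    have a1 : ∀ X : Finset V, SG M s X univ = SG M s X A + SG M s X U := by
      intro X
      unfold SG
      rw [← sum_add_distrib]
      refine sum_congr rfl fun z _ => ?_
      rw [← sum_union hdisj, hunion]
    have a2 : SG M s univ univ = SG M s A univ + SG M s U univ := by
      unfold SG
      rw [← sum_union hdisj, hunion]
    rw [a2, a1 A, a1 U, SG_comm M hM s U A]
    ring
  have hUz : ∀ z : V, ∑ y ∈ U, G M s z y ≤ 0 := by
    intro z
    rw [hU, hsum]
    exact sum_nonpos fun x hx => sum_tuple_nonpos hk h3 M hno x (hF x hx) z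
  have hUU : SG M s U U ≤ 0 := sum_nonpos fun z _ => hUz z
  have hAU : SG M s A U ≤ 0 := sum_nonpos fun z _ => hUz z
  refine ⟨by linarith, fun h4 => ?_⟩
  rcases lt_or_ge (SG M s A A) 0 with hneg | hpos
  · linarith
  rcases Nat.eq_zero_or_pos A.card with hA0 | hA0
  · have : A = ∅ := card_eq_zero.mp hA0
    have : SG M s A A = 0 := by rw [this]; simp [SG]
    linarith
  have hcross : 8 * (A.card : ℤ) * SG M s A U ≤ - (U.card * SG M s A A) := by
    have e2 : SG M s A U = ∑ x ∈ F, ∑ z ∈ A, ∑ a, G M s z (x a) := by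
      unfold SG
      rw [sum_comm]
      rw [sum_comm]
      rw [sum_congr rfl fun z _ => by rw [hU, hsum]]
      rw [sum_comm]
    rw [e2, mul_sum]
    calc _ ≤ ∑ _x ∈ F, (- (s * SG M s A A)) :=
          sum_le_sum fun x hx => cross hs hk h3 M hM hd hno x (hF x hx) A
      _ = _ := by
          rw [sum_const, hcard, nsmul_eq_mul]
          push_cast
          ring
  have h4' : (4 * A.card : ℤ) ≤ U.card := by exact_mod_cast h4
  have hA0' : (0 : ℤ) < A.card := by exact_mod_cast hA0
  have h5 : (4 * A.card : ℤ) * SG M s A A ≤ U.card * SG M s A A := mul_le_mul_of_nonneg_right h4' hpos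
  have h6 : (4 * A.card : ℤ) * SG M s univ univ ≤ 0 := by
    have h7 : (4 * A.card : ℤ) * SG M s U U ≤ 0 := mul_nonpos_of_nonneg_of_nonpos (by positivity) hUU
    rw [e1]
    nlinarith
  by_contra hcon
  push Not at hcon
  have : 0 < (4 * A.card : ℤ) * SG M s univ univ := by positivity
  linarith

end Pool.Agent.W188.Tpl
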