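import Mathlib

/-! Random tuples: few tuples have many missing pairs. -/

set_option autoImplicit false
set_option linter.unusedSectionVars false

namespace Pool.Agent.W188.Tpl

open Finset

section resample

variable {I α : Type*} [Fintype I] [DecidableEq I] [Fintype α]

/-- exchange two coordinates of a tuple with two external values -/
def swapEquiv (a b : I) (hab : a ≠ b) : ((I → α) × α × α) ≃ ((I → α) × α × α) where
  toFun p := (Function.update (Function.update p.1 a p.2.1) b p.2.2, p.1 a, p.1 b)
  invFun p := (Function.update (Function.update p.1 a p.2.1) b p.2.2, p.1 a, p.1 b)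
  left_inv := by
    rintro ⟨x, y, z⟩
    refine Prod.ext ?_ (Prod.ext ?_ ?_)
    · funext i
      by_cases hb : i = b
      · subst hb; simp
      · by_cases ha : i = a
        · subst ha; simp [hb]
        · simp [ha, hb]
    · simp [hab]
    · simp
  right_inv := by
    rintro ⟨x, y, z⟩
    refine Prod.ext ?_ (Prod.ext ?_ ?_)
    · funext i
      by_cases hb : i = b
      · subst hb; simp
      · by_cases ha : i = a
        · subst ha; simp [hb]
        · simp [ha, hb]
    · simp [hab]
    · simp

theorem resample (a b : I) (hab : a ≠ b) (F : (I → α) → ℝ)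
    (hF : ∀ x y z, F (Function.update (Function.update x a y) b z) = F x) (h : α → α → ℝ) :
    (Fintype.card α : ℝ) ^ 2 * ∑ x, F x * h (x a) (x b) = (∑ x, F x) * ∑ y, ∑ z, h y z := by
  have e1 : (∑ x, F x) * ∑ y, ∑ z, h y z = ∑ p : (I → α) × α × α, F p.1 * h p.2.1 p.2.2 := by
    rw [Fintype.sum_prod_type, sum_mul]
    refine sum_congr rfl fun x _ => ?_
    rw [Fintype.sum_prod_type, mul_sum]
    refine sum_congr rfl fun y _ => ?_
    rw [mul_sum]
  have e2 : (Fintype.card α : ℝ) ^ 2 * ∑ x, F x * h (x a) (x b) =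
      ∑ p : (I → α) × α × α, F p.1 * h (p.1 a) (p.1 b) := by
    rw [Fintype.sum_prod_type, mul_sum]
    refine sum_congr rfl fun x _ => ?_
    simp only [sum_const, card_univ, Fintype.card_prod, nsmul_eq_mul]
    push_cast
    ring
  rw [e1, e2, ← (swapEquiv a b hab).sum_comp]
  refine sum_congr rfl fun p _ => ?_
  simp only [swapEquiv, Equiv.coe_fn_mk]
  rw [hF]
  congr 1
  · simp [hab]

theorem pairs_indep (b : I → I) (S : Finset I) (h1 : ∀ a ∈ S, b a ∉ S)
    (h2 : Set.InjOn b S) (h : α → α → ℝ) :
    ((Fintype.card α : ℝ) ^ 2) ^ S.card * ∑ x : I → α, ∏ a ∈ S, h (x a) (x (b a)) =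
      (Fintype.card α : ℝ) ^ Fintype.card I * (∑ y, ∑ z, h y z) ^ S.card := by
  induction S using Finset.induction_on with
  | empty => simp
  | insert a S ha ih =>
    have h1' : ∀ c ∈ S, b c ∉ S := fun c hc hcS => h1 c (mem_insert_of_mem hc) (mem_insert_of_mem hcS)
    have h2' : Set.InjOn b S := h2.mono (by simp)
    have hba : a ≠ b a := fun h => h1 a (mem_insert_self _ _) (h ▸ mem_insert_self _ _)
    have hr := resample (α := α) a (b a) hba (fun x => ∏ c ∈ S, h (x c) (x (b c))) (by
      intro x y z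
      refine prod_congr rfl fun c hc => ?_
      have n1 : c ≠ b a := fun hh => h1 a (mem_insert_self _ _) (hh ▸ mem_insert_of_mem hc)
      have n2 : c ≠ a := fun hh => ha (hh ▸ hc)
      have n3 : b c ≠ b a := fun hh =>
        n2 (h2 (mem_coe.mpr (mem_insert_of_mem hc)) (mem_coe.mpr (mem_insert_self _ _)) hh)
      have n4 : b c ≠ a := fun hh => h1 c (mem_insert_of_mem hc) (hh ▸ mem_insert_self _ _)
      rw [Function.update_of_ne n1, Function.update_of_ne n2, Function.update_of_ne n3,
        Function.update_of_ne n4]) h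
    rw [card_insert_of_notMem ha, pow_succ, pow_succ (∑ y, ∑ z, h y z)]
    have e : ∑ x : I → α, ∏ c ∈ insert a S, h (x c) (x (b c)) =
        ∑ x : I → α, (∏ c ∈ S, h (x c) (x (b c))) * h (x a) (x (b a)) :=
      sum_congr rfl fun x _ => by rw [prod_insert ha, mul_comm]
    rw [e, mul_assoc, hr, ← mul_assoc, ih h1' h2', mul_assoc]

end resample

section matching

variable {α : Type*} [Fintype α]

/-- the number of missing pairs in the matching `a + b = i` -/
def mcnt {s : ℕ} (Nn : α → α → Prop) [DecidableRel Nn] (i : Fin s) (x : Fin s → α) : ℕ :=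
  (univ.filter fun a : Fin s => a < i - a ∧ Nn (x a) (x (i - a))).card

/-- the number of missing pairs -/
def pcnt {s : ℕ} (Nn : α → α → Prop) [DecidableRel Nn] (x : Fin s → α) : ℕ :=
  (univ.filter fun p : Fin s × Fin s => p.1 < p.2 ∧ Nn (x p.1) (x p.2)).card

theorem pcnt_eq {s : ℕ} (Nn : α → α → Prop) [DecidableRel Nn] (x : Fin s → α) :
    pcnt Nn x = ∑ i : Fin s, mcnt Nn i x := by
  rcases Nat.eq_zero_or_pos s with h | h
  · subst h; simp [pcnt]
  · have : NeZero s := ⟨h.ne'⟩
    unfold pcnt mcnt
    simp only [card_filter]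
    rw [Fintype.sum_prod_type]
    rw [sum_comm (γ := Fin s) (s := univ) (t := univ) (f := fun i a =>
      if a < i - a ∧ Nn (x a) (x (i - a)) then 1 else 0)]
    refine sum_congr rfl fun a _ => ?_
    exact ((Equiv.subRight a).sum_comp (fun b => if a < b ∧ Nn (x a) (x b) then 1 else 0)).symm

/-- Few tuples have at least `v` missing pairs in a given matching. -/
theorem mcnt_bound {s : ℕ} (Nn : α → α → Prop) [DecidableRel Nn] (i : Fin s) (v L : ℕ)
    (hN : 0 < Fintype.card α)
    (hp : L * ∑ y : α, (univ.filter fun z => Nn y z).card ≤ Fintype.card α ^ 2) :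
    (L + 1) ^ v * (univ.filter fun x : Fin s → α => v ≤ mcnt Nn i x).card ≤
      2 ^ s * Fintype.card α ^ s := by
  have : NeZero s := ⟨fun h => by subst h; exact i.elim0⟩
  classical
  set S : Finset (Fin s) := univ.filter fun a => a < i - a with hS
  let h : α → α → ℝ := fun y z => if Nn y z then (L : ℝ) + 1 else 1
  have key := pairs_indep (α := α) (fun a : Fin s => i - a) S (by
    intro a ha
    rw [hS, mem_filter] at ha ⊢
    intro hc
    have h3 : i - (i - a) = a := by abel
    rw [h3] at hc
    exact absurd hc.2 (not_lt.mpr ha.2.le)) (fun a _ c _ hac => by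
      have : i - a = i - c := hac
      exact sub_right_injective this) h
  have hprod : ∀ x : Fin s → α, ∏ a ∈ S, h (x a) (x (i - a)) = ((L : ℝ) + 1) ^ mcnt Nn i x := by
    intro x
    simp only [h]
    rw [prod_ite, prod_const, prod_const_one, mul_one]
    congr 1
    unfold mcnt
    rw [hS, filter_filter]
  have hH : ∑ y, ∑ z, h y z ≤ 2 * (Fintype.card α : ℝ) ^ 2 := by
    have e : ∀ y, ∑ z, h y z = (Fintype.card α : ℝ) + L * ((univ.filter fun z => Nn y z).card : ℝ) := by
      intro y
      have : ∀ z, h y z = 1 + (if Nn y z then (L : ℝ) else 0) := by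
        intro z
        simp only [h]
        split_ifs <;> ring
      rw [sum_congr rfl fun z _ => this z, sum_add_distrib, sum_ite, sum_const_zero, add_zero,
        sum_const, sum_const]
      simp
      ring
    rw [sum_congr rfl fun y _ => e y, sum_add_distrib, ← mul_sum]
    have : (L : ℝ) * ∑ y : α, ((univ.filter fun z => Nn y z).card : ℝ) ≤ (Fintype.card α : ℝ) ^ 2 := by
      exact_mod_cast hp
    simp only [sum_const, card_univ, nsmul_eq_mul]
    nlinarith
  have hN' : (0 : ℝ) < Fintype.card α := by exact_mod_cast hN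
  have hH0 : 0 ≤ ∑ y, ∑ z, h y z := sum_nonneg fun y _ => sum_nonneg fun z _ => by
    simp only [h]; split_ifs <;> positivity
  have hScard : S.card ≤ s := by
    calc S.card ≤ (univ : Finset (Fin s)).card := card_le_card (subset_univ _)
      _ = s := by simp
  have hsum : ∑ x : Fin s → α, ∏ a ∈ S, h (x a) (x (i - a)) ≤ 2 ^ s * (Fintype.card α : ℝ) ^ s := by
    have h3 : ((Fintype.card α : ℝ) ^ 2) ^ S.card * ∑ x : Fin s → α, ∏ a ∈ S, h (x a) (x (i - a)) ≤
        ((Fintype.card α : ℝ) ^ 2) ^ S.card * (2 ^ s * (Fintype.card α : ℝ) ^ s) := by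
      rw [key, Fintype.card_fin]
      calc _ ≤ (Fintype.card α : ℝ) ^ s * (2 * (Fintype.card α : ℝ) ^ 2) ^ S.card := by gcongr
        _ = ((Fintype.card α : ℝ) ^ 2) ^ S.card * (2 ^ S.card * (Fintype.card α : ℝ) ^ s) := by
            rw [mul_pow]; ring
        _ ≤ _ := by gcongr; norm_num
    exact le_of_mul_le_mul_left h3 (by positivity)
  have hle : ((L : ℝ) + 1) ^ v * ((univ.filter fun x : Fin s → α => v ≤ mcnt Nn i x).card : ℝ) ≤
      2 ^ s * (Fintype.card α : ℝ) ^ s := by
    refine le_trans ?_ hsum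
    rw [mul_comm, ← nsmul_eq_mul, ← sum_const]
    calc _ ≤ ∑ x ∈ univ.filter (fun x : Fin s → α => v ≤ mcnt Nn i x), ∏ a ∈ S, h (x a) (x (i - a)) := by
          refine sum_le_sum fun x hx => ?_
          rw [hprod]
          exact pow_le_pow_right₀ (by linarith [Nat.cast_nonneg (α := ℝ) L]) (mem_filter.mp hx).2
      _ ≤ _ := sum_le_univ_sum_of_nonneg fun x => by rw [hprod]; positivity
  exact_mod_cast hle

end matching

end Pool.Agent.W188.Tpl
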