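import Pool.Agent.W188.Tpl.MM
import Pool.Agent.W188.Tpl.Match
import Pool.Agent.W188.Tpl.Hall

/-! Existence of suitable tuples. -/

set_option autoImplicit false
set_option linter.unusedSectionVars false

namespace Pool.Agent.W188.Tpl

open Finset

variable {α : Type*} [Fintype α] {k s : ℕ}

/-- the weight of a pair -/
noncomputable def kap (M : α → α → Finset (Fin k)) (s : ℕ) (x y : α) : ℝ :=
  max 0 (1 - (1 + 1 / (2 * (s + 1))) * (1 - (M x y).card / k))

theorem kap_nonneg (M : α → α → Finset (Fin k)) (x y : α) : 0 ≤ kap M s x y := le_max_left _ _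

theorem card_div_le (M : α → α → Finset (Fin k)) (x y : α) : ((M x y).card : ℝ) / k ≤ 1 := by
  have h : (M x y).card ≤ k := by simpa using card_le_univ (M x y)
  rcases Nat.eq_zero_or_pos k with hk | hk
  · subst hk; simp
  · rw [div_le_one (by exact_mod_cast hk)]
    exact_mod_cast h

theorem kap_le_frac (M : α → α → Finset (Fin k)) (x y : α) :
    kap M s x y ≤ (M x y).card / k := by
  have h := card_div_le M x y
  refine max_le (by positivity) ?_
  have h2 : 0 ≤ (1 : ℝ) / (2 * (s + 1)) * (1 - (M x y).card / k) :=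
    mul_nonneg (by positivity) (by linarith)
  linarith

theorem kap_le_one (M : α → α → Finset (Fin k)) (x y : α) : kap M s x y ≤ 1 :=
  (kap_le_frac M x y).trans (card_div_le M x y)

theorem P_le_pow (M : α → α → Finset (Fin k)) (x : Fin s → α) (j : ℕ) (β : ℝ)
    (hβ : ∀ y z, (M y z).card ≤ j → kap M s y z ≤ β) :
    P (kap M s) x ≤ β ^ cnt M j x := by
  have e : β ^ cnt M j x =
      ∏ a : Fin s, ∏ b : Fin s, (if a < b ∧ (M (x a) (x b)).card ≤ j then β else 1) := by
    unfold cnt
    rw [← prod_pow_eq_pow_sum]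
    refine prod_congr rfl fun a _ => ?_
    rw [← prod_pow_eq_pow_sum]
    refine prod_congr rfl fun b _ => ?_
    split_ifs <;> simp
  rw [e]
  unfold P
  refine prod_le_prod (fun a _ => prod_nonneg fun b _ => ?_) fun a _ =>
    prod_le_prod (fun b _ => ?_) fun b _ => ?_
  · split_ifs
    · exact kap_nonneg M _ _
    · exact zero_le_one
  · split_ifs
    · exact kap_nonneg M _ _
    · exact zero_le_one
  · by_cases h : a < b
    · by_cases h2 : (M (x a) (x b)).card ≤ j
      · rw [if_pos h, if_pos ⟨h, h2⟩]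
        exact hβ _ _ h2
      · rw [if_pos h, if_neg (fun hh => h2 hh.2)]
        exact kap_le_one M _ _
    · rw [if_neg h, if_neg (fun hh => h hh.1)]

theorem miss_eq_pcnt [DecidableEq α] (M : α → α → Finset (Fin k)) (c : Fin k) (x : Fin s → α) :
    miss M c x = pcnt (fun y z => c ∉ M y z) x := by
  unfold miss pcnt
  rw [card_filter, Fintype.sum_prod_type]

theorem numeric (hk : 2 * k = (s + 1) * s) (hs : 2 ^ 20 ≤ s) :
    k * s * (2 ^ s * (4 * 4 ^ s)) ≤ (2 ^ 15) ^ (s / 4 - 2) := by
  have h1 : s < 2 ^ (s / 8 + 3) := by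
    have : s / 8 + 1 ≤ 2 ^ (s / 8) := Nat.lt_two_pow_self
    rw [pow_add]
    omega
  have hk2 : k ≤ s * s := by nlinarith
  have h2 : k * s ≤ 2 ^ (3 * (s / 8 + 3)) := by
    calc k * s ≤ s * s * s := Nat.mul_le_mul_right _ hk2
      _ ≤ 2 ^ (s / 8 + 3) * 2 ^ (s / 8 + 3) * 2 ^ (s / 8 + 3) := by gcongr
      _ = 2 ^ (3 * (s / 8 + 3)) := by rw [← pow_add, ← pow_add]; congr 1; ring
  have h3 : (2 ^ s * (4 * 4 ^ s)) = 2 ^ (3 * s + 2) := by
    rw [show (4 : ℕ) = 2 ^ 2 from rfl, ← pow_mul, ← pow_add, ← pow_add]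
    congr 1; ring
  rw [h3, ← pow_mul]
  calc k * s * 2 ^ (3 * s + 2) ≤ 2 ^ (3 * (s / 8 + 3)) * 2 ^ (3 * s + 2) := Nat.mul_le_mul_right _ h2
    _ = 2 ^ (3 * (s / 8 + 3) + (3 * s + 2)) := by rw [← pow_add]
    _ ≤ _ := Nat.pow_le_pow_right (by norm_num) (by norm_num at hs; omega)

theorem exists_suit [DecidableEq α] (hk : 2 * k = (s + 1) * s) (hs : 2 ^ 20 ≤ s)
    (M : α → α → Finset (Fin k)) (hM : ∀ x y, M x y = M y x) (hN : 0 < Fintype.card α)
    (C1 : (s : ℝ) * ∑ x, ∑ y, ((k : ℝ) - (M x y).card) < k * (Fintype.card α : ℝ) ^ 2)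
    (C2 : ∀ c, s * ∑ x, (univ.filter fun y => c ∉ M x y).card ≤ 25 * Fintype.card α ^ 2) :
    ∃ x : Fin s → α, Suit M x := by
  classical
  have hs' : (2 : ℝ) ^ 20 ≤ s := by exact_mod_cast hs
  have hs0 : (0 : ℝ) < s := lt_of_lt_of_le (by norm_num) hs'
  have hkR : 2 * (k : ℝ) = (s + 1) * s := by exact_mod_cast hk
  have hk0 : (0 : ℝ) < k := by nlinarith
  have hN' : (0 : ℝ) < Fintype.card α := by exact_mod_cast hN
  set N : ℝ := ((Fintype.card α : ℕ) : ℝ) with hNdef
  -- step A
  have hA : (2 * s - 3) * N ^ 2 ≤ (2 * s - 1) * Z (kap M s) 2 := by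
    rw [Z_two]
    set T : ℝ := ∑ x, ∑ y, (1 - ((M x y).card : ℝ) / k) with hT
    have hT1 : s * T < N ^ 2 := by
      have e : ∑ x, ∑ y, ((k : ℝ) - (M x y).card) = k * T := by
        rw [hT]
        simp only [mul_sum]
        refine sum_congr rfl fun x _ => sum_congr rfl fun y _ => ?_
        field_simp
      rw [e] at C1
      have : (k : ℝ) * (s * T) < k * N ^ 2 := by linarith
      exact lt_of_mul_lt_mul_left this hk0.le
    have hT0 : N ^ 2 - (1 + 1 / (2 * (s + 1))) * T ≤ ∑ x, ∑ y, kap M s x y := by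
      have e : N ^ 2 - (1 + 1 / (2 * (s + 1))) * T =
          ∑ x, ∑ y, (1 - (1 + 1 / (2 * (s + 1))) * (1 - ((M x y).card : ℝ) / k)) := by
        have e1 : ∀ x, ∑ y, (1 - (1 + 1 / (2 * ((s : ℝ) + 1))) * (1 - ((M x y).card : ℝ) / k)) =
            N - (1 + 1 / (2 * (s + 1))) * ∑ y, (1 - ((M x y).card : ℝ) / k) := by
          intro x
          rw [sum_sub_distrib, ← mul_sum]
          simp [hNdef]
        rw [sum_congr rfl fun x _ => e1 x, sum_sub_distrib, ← mul_sum, hT]
        simp [hNdef, sq]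
      rw [e]
      exact sum_le_sum fun x _ => sum_le_sum fun y _ => le_max_right _ _
    have h1 : (2 * s - 1) * (1 + 1 / (2 * (s + 1))) ≤ (2 * s : ℝ) := by
      rw [show (1 + 1 / (2 * ((s : ℝ) + 1))) = (2 * s + 3) / (2 * (s + 1)) by field_simp; ring,
        ← mul_div_assoc, div_le_iff₀ (by positivity)]
      nlinarith
    have hT2 : 0 ≤ T := by
      rw [hT]
      exact sum_nonneg fun x _ => sum_nonneg fun y _ => by
        have := card_div_le M x y
        linarith
    have h3 := mul_le_mul_of_nonneg_right h1 hT2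
    have h4 := mul_le_mul_of_nonneg_left hT0 (show (0 : ℝ) ≤ 2 * s - 1 by linarith)
    nlinarith
  -- step B
  have hB := Z_lower (kap M s) (fun x y => by unfold kap; rw [hM]) (kap_nonneg M) (kap_le_one M) s
    (by omega) hN hA
  -- step C
  set v := s / 4 - 2 with hv
  let bad : Fin k → Fin s → Finset (Fin s → α) := fun c i =>
    univ.filter fun x => v ≤ mcnt (fun y z => c ∉ M y z) i x
  have hbad : ∀ c i, (2 ^ 15) ^ v * (bad c i).card ≤ 2 ^ s * Fintype.card α ^ s := by
    intro c i
    have := mcnt_bound (fun y z => c ∉ M y z) i v (2 ^ 15 - 1) hN (by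
      have h1 := C2 c
      have h2 : (2 ^ 15 - 1) * 25 ≤ s := by norm_num at hs ⊢; omega
      have h3 : s * ((2 ^ 15 - 1) * ∑ y, (univ.filter fun z => c ∉ M y z).card) ≤
          s * Fintype.card α ^ 2 := by
        calc _ = (2 ^ 15 - 1) * (s * ∑ y, (univ.filter fun z => c ∉ M y z).card) := by ring
          _ ≤ (2 ^ 15 - 1) * (25 * Fintype.card α ^ 2) := Nat.mul_le_mul_left _ h1
          _ = ((2 ^ 15 - 1) * 25) * Fintype.card α ^ 2 := by ring
          _ ≤ _ := Nat.mul_le_mul_right _ h2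
      exact Nat.le_of_mul_le_mul_left h3 (by omega))
    simpa using this
  set B : Finset (Fin s → α) := univ.biUnion fun c => univ.biUnion fun i => bad c i with hBdef
  have hBcard : B.card * (4 * 4 ^ s) ≤ Fintype.card α ^ s := by
    have h1 : B.card ≤ ∑ c : Fin k, ∑ i : Fin s, (bad c i).card :=
      card_biUnion_le.trans (sum_le_sum fun c _ => card_biUnion_le)
    have h2 : (2 ^ 15) ^ v * B.card ≤ k * s * (2 ^ s * Fintype.card α ^ s) := by
      calc (2 ^ 15) ^ v * B.card ≤ (2 ^ 15) ^ v * ∑ c : Fin k, ∑ i : Fin s, (bad c i).card :=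
            Nat.mul_le_mul_left _ h1
        _ = ∑ c : Fin k, ∑ i : Fin s, (2 ^ 15) ^ v * (bad c i).card := by simp only [mul_sum]
        _ ≤ ∑ _c : Fin k, ∑ _i : Fin s, 2 ^ s * Fintype.card α ^ s :=
            sum_le_sum fun c _ => sum_le_sum fun i _ => hbad c i
        _ = _ := by simp; ring
    have h3 := numeric hk hs
    have h4 : (2 ^ 15) ^ v * (B.card * (4 * 4 ^ s)) ≤ (2 ^ 15) ^ v * Fintype.card α ^ s := by
      calc _ = ((2 ^ 15) ^ v * B.card) * (4 * 4 ^ s) := by ring
        _ ≤ (k * s * (2 ^ s * Fintype.card α ^ s)) * (4 * 4 ^ s) := Nat.mul_le_mul_right _ h2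
        _ = (k * s * (2 ^ s * (4 * 4 ^ s))) * Fintype.card α ^ s := by ring
        _ ≤ _ := Nat.mul_le_mul_right _ h3
    exact Nat.le_of_mul_le_mul_left h4 (by positivity)
  -- step D
  obtain ⟨x, hxB, hxP⟩ : ∃ x : Fin s → α, x ∉ B ∧ (1 / 2 : ℝ) ^ (2 * s + 1) ≤ P (kap M s) x := by
    by_contra hcon
    push Not at hcon
    have h1 : Z (kap M s) s ≤ B.card + N ^ s * (1 / 2 : ℝ) ^ (2 * s + 1) := by
      unfold Z
      rw [← sum_add_sum_compl B]
      refine add_le_add ?_ ?_
      · calc _ ≤ ∑ _x ∈ B, (1 : ℝ) := sum_le_sum fun x _ => by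
              have := P_le_pow M x k 1 (fun y z _ => kap_le_one M y z)
              simpa using this
          _ = _ := by simp
      · calc _ ≤ ∑ _x ∈ Bᶜ, (1 / 2 : ℝ) ^ (2 * s + 1) := sum_le_sum fun x hx =>
              (hcon x (mem_compl.mp hx)).le
          _ = (Bᶜ.card : ℝ) * (1 / 2 : ℝ) ^ (2 * s + 1) := by simp
          _ ≤ _ := by
              gcongr
              have : Bᶜ.card ≤ Fintype.card (Fin s → α) := card_le_univ _
              rw [Fintype.card_fun, Fintype.card_fin] at this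
              rw [hNdef]
              exact_mod_cast this
    have h2 : (B.card : ℝ) * (4 * 4 ^ s) ≤ N ^ s := by
      rw [hNdef]; exact_mod_cast hBcard
    have h3 : (1 / 2 : ℝ) ^ (2 * s + 1) * 4 ^ s = 1 / 2 := by
      rw [pow_succ, pow_mul, show (1 / 2 : ℝ) ^ 2 = 1 / 4 by norm_num, mul_right_comm, ← mul_pow]
      norm_num
    have h4 : N ^ s ≤ 4 ^ s * (B.card + N ^ s * (1 / 2 : ℝ) ^ (2 * s + 1)) :=
      hB.trans (mul_le_mul_of_nonneg_left h1 (by positivity))
    have h5 : 4 ^ s * (B.card + N ^ s * (1 / 2 : ℝ) ^ (2 * s + 1)) =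
        (B.card * (4 * 4 ^ s)) / 4 + N ^ s * ((1 / 2 : ℝ) ^ (2 * s + 1) * 4 ^ s) := by ring
    rw [h5, h3] at h4
    have h6 : 0 < N ^ s := by positivity
    linarith
  refine ⟨x, ⟨?_, ?_⟩⟩
  · -- step F
    intro j hj
    set e := cnt M j x with he
    have hjR : 2 * (j : ℝ) ≤ k := by exact_mod_cast hj
    have frac : ∀ y z : α, (M y z).card ≤ j → ((M y z).card : ℝ) / k ≤ j / k := by
      intro y z h
      gcongr
    have e1 : e ≤ 2 * s + 1 := by
      have h1 := P_le_pow M x j (1 / 2) (fun y z h => (kap_le_frac M y z).trans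
        ((frac y z h).trans (by rw [div_le_iff₀ hk0]; linarith)))
      by_contra hlt
      have h2 : (1 / 2 : ℝ) ^ e < (1 / 2) ^ (2 * s + 1) :=
        pow_lt_pow_right_of_lt_one₀ (by norm_num) (by norm_num) (by omega)
      linarith
    rcases Nat.lt_or_ge (5 * j) s with h5 | h5
    · have e0 : e = 0 := by
        by_contra hne
        have h1 := P_le_pow M x j 0 (fun y z h => by
          unfold kap
          refine max_le le_rfl ?_
          have h2 : ((M y z).card : ℝ) * (2 * s + 3) ≤ k := by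
            have h3 : ((M y z).card : ℝ) ≤ j := by exact_mod_cast h
            have h4 : 5 * (j : ℝ) < s := by exact_mod_cast h5
            have h6 : ((M y z).card : ℝ) * (2 * s + 3) ≤ (s / 5) * (2 * s + 3) := by
              gcongr; linarith
            nlinarith
          have h3 : ((M y z).card : ℝ) / k ≤ 1 / (2 * s + 3) := by
            rw [div_le_div_iff₀ hk0 (by positivity)]; linarith
          have h4 : 1 ≤ (1 + 1 / (2 * ((s : ℝ) + 1))) * (1 - 1 / (2 * s + 3)) := by
            have : (1 + 1 / (2 * ((s : ℝ) + 1))) * (1 - 1 / (2 * s + 3)) = 1 := by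
              field_simp
              ring
            rw [this]
          have h7 : (1 + 1 / (2 * ((s : ℝ) + 1))) * (1 - 1 / (2 * s + 3)) ≤
              (1 + 1 / (2 * ((s : ℝ) + 1))) * (1 - ((M y z).card : ℝ) / k) := by
            gcongr
          linarith)
        rw [zero_pow hne] at h1
        have : (0 : ℝ) < (1 / 2) ^ (2 * s + 1) := by positivity
        linarith
      omega
    · rcases Nat.lt_or_ge j (2 * s + 3) with h6 | h6
      · have e2 : 18 * e ≤ 2 * s + 1 := by
          have h1 := P_le_pow M x j ((1 / 2) ^ 18) (fun y z h => (kap_le_frac M y z).trans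
            ((frac y z h).trans (by
              rw [div_le_iff₀ hk0]
              have h7 : (j : ℝ) ≤ 2 * s + 2 := by
                have : j ≤ 2 * s + 2 := by omega
                exact_mod_cast this
              nlinarith)))
          rw [← pow_mul] at h1
          by_contra hlt
          have h2 : (1 / 2 : ℝ) ^ (18 * e) < (1 / 2) ^ (2 * s + 1) :=
            pow_lt_pow_right_of_lt_one₀ (by norm_num) (by norm_num) (by omega)
          linarith
        norm_num at hs
        omega
      · omega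
  · -- step E
    intro c
    have h1 : miss M c x ≤ s * (s / 4 - 3) := by
      rw [miss_eq_pcnt, pcnt_eq]
      calc _ ≤ ∑ _i : Fin s, (s / 4 - 3) := by
            refine sum_le_sum fun i _ => ?_
            by_contra hlt
            refine hxB ?_
            rw [hBdef, mem_biUnion]
            refine ⟨c, mem_univ _, ?_⟩
            rw [mem_biUnion]
            refine ⟨i, mem_univ _, ?_⟩
            simp only [bad, mem_filter, mem_univ, true_and]
            omega
        _ = _ := by simp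
    have h2 : 4 * (s / 4) ≤ s := Nat.mul_div_le s 4
    obtain ⟨u, hu⟩ : ∃ u, s / 4 = u + 3 := ⟨s / 4 - 3, by norm_num at hs; omega⟩
    rw [hu] at h1 h2
    have h3 : u + 3 - 3 = u := by omega
    rw [h3] at h1
    nlinarith

end Pool.Agent.W188.Tpl
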