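import Mathlib

/-! Weighted Moon-Moser inequality. -/

set_option autoImplicit false
set_option linter.unusedSectionVars false

namespace Pool.Agent.W188.Tpl

open Finset

variable {α : Type*} [Fintype α]

/-- The product of `κ` over all pairs of entries of a tuple. -/
noncomputable def P (κ : α → α → ℝ) {j : ℕ} (x : Fin j → α) : ℝ :=
  ∏ a, ∏ b, if a < b then κ (x a) (x b) else 1

/-- The weighted number of `j`-tuples. -/
noncomputable def Z (κ : α → α → ℝ) (j : ℕ) : ℝ := ∑ x : Fin j → α, P κ x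

/-- The weight of adding `y` to the tuple `x`. -/
noncomputable def dd (κ : α → α → ℝ) {j : ℕ} (x : Fin j → α) (y : α) : ℝ := ∏ a, κ (x a) y

/-- The total weight of the extensions of `x`. -/
noncomputable def DD (κ : α → α → ℝ) {j : ℕ} (x : Fin j → α) : ℝ := ∑ y, dd κ x y

theorem P_insertNth (κ : α → α → ℝ) (hs : ∀ x y, κ x y = κ y x) {j : ℕ} (i : Fin (j + 1)) (y : α)
    (Y : Fin j → α) :
    P κ (Fin.insertNth (α := fun _ => α) i y Y) = P κ Y * dd κ Y y := by
  unfold P dd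
  rw [Fin.prod_univ_succAbove _ i]
  simp only [Fin.prod_univ_succAbove _ i, Fin.insertNth_apply_same, Fin.insertNth_apply_succAbove,
    lt_irrefl, if_false, one_mul]
  rw [prod_mul_distrib, ← mul_assoc, ← prod_mul_distrib, mul_comm]
  congr 1
  · refine prod_congr rfl fun a _ => prod_congr rfl fun b _ => ?_
    simp only [Fin.succAbove_lt_succAbove_iff]
  · refine prod_congr rfl fun a _ => ?_
    rcases lt_trichotomy i (i.succAbove a) with h | h | h
    · rw [if_pos h, if_neg (not_lt.mpr h.le), mul_one, hs]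
    · exact absurd h.symm (Fin.succAbove_ne i a)
    · rw [if_neg (not_lt.mpr h.le), if_pos h, one_mul]

theorem sum_insertNth {j : ℕ} (i : Fin (j + 1)) (F : (Fin (j + 1) → α) → ℝ) :
    ∑ X, F X = ∑ Y : Fin j → α, ∑ y : α, F (Fin.insertNth (α := fun _ => α) i y Y) := by
  rw [← (Fin.insertNthEquiv (fun _ => α) i).sum_comp, Fintype.sum_prod_type, sum_comm]
  rfl

theorem Z_succ (κ : α → α → ℝ) (hs : ∀ x y, κ x y = κ y x) (j : ℕ) :
    Z κ (j + 1) = ∑ Y : Fin j → α, P κ Y * DD κ Y := by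
  unfold Z
  rw [sum_insertNth 0]
  refine sum_congr rfl fun Y _ => ?_
  rw [DD, mul_sum]
  exact sum_congr rfl fun y _ => P_insertNth κ hs 0 y Y

theorem sum_prod_erase_le {ι : Type*} [DecidableEq ι] (s : Finset ι) (t : ι → ℝ)
    (h0 : ∀ i, 0 ≤ t i) (h1 : ∀ i, t i ≤ 1) :
    ∑ i ∈ s, ∏ a ∈ s.erase i, t a ≤ 1 + ((s.card : ℝ) - 1) * ∏ a ∈ s, t a := by
  induction s using Finset.induction_on with
  | empty => simp
  | insert a s ha ih =>
    rw [sum_insert ha, erase_insert ha, prod_insert ha, card_insert_of_notMem ha]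
    have h : ∑ i ∈ s, ∏ b ∈ (insert a s).erase i, t b = t a * ∑ i ∈ s, ∏ b ∈ s.erase i, t b := by
      rw [mul_sum]
      refine sum_congr rfl fun i hi => ?_
      have hne : i ≠ a := fun h => ha (h ▸ hi)
      rw [erase_insert_of_ne hne.symm, prod_insert]
      exact fun h => ha (mem_of_mem_erase h)
    rw [h]
    have hP0 : 0 ≤ ∏ b ∈ s, t b := prod_nonneg fun i _ => h0 i
    have hP1 : ∏ b ∈ s, t b ≤ 1 := prod_le_one (fun i _ => h0 i) (fun i _ => h1 i)
    have := mul_le_mul_of_nonneg_left ih (h0 a)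
    have h2 : 0 ≤ (1 - t a) * (1 - ∏ b ∈ s, t b) :=
      mul_nonneg (sub_nonneg.mpr (h1 a)) (sub_nonneg.mpr hP1)
    push_cast
    nlinarith

theorem prod_succAbove {j : ℕ} (i : Fin (j + 1)) (t : Fin (j + 1) → ℝ) :
    ∏ a : Fin j, t (i.succAbove a) = ∏ a ∈ univ.erase i, t a := by
  have : (univ : Finset (Fin (j + 1))).erase i = univ.image i.succAbove := by
    rw [Fin.image_succAbove_univ]
    ext; simp
  rw [this, prod_image (fun a _ b _ h => Fin.succAbove_right_injective h)]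

theorem dd_bound (κ : α → α → ℝ) (h0 : ∀ x y, 0 ≤ κ x y) (h1 : ∀ x y, κ x y ≤ 1) {j : ℕ}
    (X : Fin (j + 1) → α) (y : α) :
    ∑ i : Fin (j + 1), dd κ (fun a => X (i.succAbove a)) y ≤ 1 + j * dd κ X y := by
  have := sum_prod_erase_le (univ : Finset (Fin (j + 1))) (fun a => κ (X a) y) (fun _ => h0 _ _)
    (fun _ => h1 _ _)
  rw [card_univ, Fintype.card_fin] at this
  push_cast at this
  rw [add_sub_cancel_right] at this
  refine le_trans (le_of_eq ?_) this
  refine sum_congr rfl fun i _ => ?_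
  exact prod_succAbove i (fun a => κ (X a) y)

theorem DD_bound (κ : α → α → ℝ) (h0 : ∀ x y, 0 ≤ κ x y) (h1 : ∀ x y, κ x y ≤ 1) {j : ℕ}
    (X : Fin (j + 1) → α) :
    ∑ i : Fin (j + 1), DD κ (fun a => X (i.succAbove a)) ≤ Fintype.card α + j * DD κ X := by
  unfold DD
  rw [sum_comm]
  calc _ ≤ ∑ y : α, (1 + j * dd κ X y) := sum_le_sum fun y _ => dd_bound κ h0 h1 X y
    _ = _ := by rw [sum_add_distrib, ← mul_sum]; simp

theorem P_nonneg (κ : α → α → ℝ) (h0 : ∀ x y, 0 ≤ κ x y) {j : ℕ} (x : Fin j → α) : 0 ≤ P κ x := by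
  refine prod_nonneg fun a _ => prod_nonneg fun b _ => ?_
  split_ifs
  · exact h0 _ _
  · exact zero_le_one

theorem Z_nonneg (κ : α → α → ℝ) (h0 : ∀ x y, 0 ≤ κ x y) (j : ℕ) : 0 ≤ Z κ j :=
  sum_nonneg fun _ _ => P_nonneg κ h0 _

theorem moon_moser (κ : α → α → ℝ) (hs : ∀ x y, κ x y = κ y x) (h0 : ∀ x y, 0 ≤ κ x y)
    (h1 : ∀ x y, κ x y ≤ 1) (j : ℕ) :
    (j + 1) * Z κ (j + 1) ^ 2 ≤ Z κ j * (Fintype.card α * Z κ (j + 1) + j * Z κ (j + 2)) := by
  have hA : ∀ i : Fin (j + 1), ∑ X : Fin (j + 1) → α, P κ X * DD κ (fun a => X (i.succAbove a)) =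
      ∑ Y : Fin j → α, P κ Y * DD κ Y ^ 2 := by
    intro i
    rw [sum_insertNth i]
    refine sum_congr rfl fun Y _ => ?_
    have : ∀ y, P κ (Fin.insertNth (α := fun _ => α) i y Y) *
        DD κ (fun a => (Fin.insertNth (α := fun _ => α) i y Y) (i.succAbove a)) =
        P κ Y * DD κ Y * dd κ Y y := by
      intro y
      rw [P_insertNth κ hs]
      simp only [Fin.insertNth_apply_succAbove]
      ring
    rw [sum_congr rfl fun y _ => this y, ← mul_sum]
    rw [show ∑ i, dd κ Y i = DD κ Y from rfl]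
    ring
  have hB : (j + 1 : ℝ) * ∑ Y : Fin j → α, P κ Y * DD κ Y ^ 2 ≤
      Fintype.card α * Z κ (j + 1) + j * Z κ (j + 2) := by
    have e1 : (j + 1 : ℝ) * ∑ Y : Fin j → α, P κ Y * DD κ Y ^ 2 =
        ∑ X : Fin (j + 1) → α, P κ X * ∑ i : Fin (j + 1), DD κ (fun a => X (i.succAbove a)) := by
      simp only [mul_sum]
      rw [sum_comm]
      simp only [← mul_sum]
      rw [sum_congr rfl fun i _ => hA i]
      simp
    rw [e1, Z_succ κ hs (j + 1), mul_sum, Z, mul_sum, ← sum_add_distrib]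
    refine sum_le_sum fun X _ => ?_
    have := mul_le_mul_of_nonneg_left (DD_bound κ h0 h1 X) (P_nonneg κ h0 X)
    linarith
  have hC : Z κ (j + 1) ^ 2 ≤ Z κ j * ∑ Y : Fin j → α, P κ Y * DD κ Y ^ 2 := by
    rw [Z_succ κ hs j, Z]
    refine sum_sq_le_sum_mul_sum_of_sq_le_mul _ (fun Y _ => P_nonneg κ h0 Y)
      (fun Y _ => mul_nonneg (P_nonneg κ h0 Y) (sq_nonneg _)) (fun Y _ => le_of_eq (by ring))
  calc _ ≤ (j + 1 : ℝ) * (Z κ j * ∑ Y : Fin j → α, P κ Y * DD κ Y ^ 2) := by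
        exact mul_le_mul_of_nonneg_left hC (by positivity)
    _ = Z κ j * ((j + 1 : ℝ) * ∑ Y : Fin j → α, P κ Y * DD κ Y ^ 2) := by ring
    _ ≤ _ := mul_le_mul_of_nonneg_left hB (Z_nonneg κ h0 j)

theorem Z_zero (κ : α → α → ℝ) : Z κ 0 = 1 := by simp [Z, P]

theorem Z_one (κ : α → α → ℝ) : Z κ 1 = Fintype.card α := by
  simp [Z, P]

theorem Z_two (κ : α → α → ℝ) : Z κ 2 = ∑ x, ∑ y, κ x y := by
  unfold Z P
  rw [← (finTwoArrowEquiv α).symm.sum_comp, Fintype.sum_prod_type]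
  refine sum_congr rfl fun x _ => sum_congr rfl fun y _ => ?_
  simp [Fin.prod_univ_two]

/-- The lower bound for the weighted number of `s`-tuples. -/
theorem Z_step (κ : α → α → ℝ) (hs : ∀ x y, κ x y = κ y x) (h0 : ∀ x y, 0 ≤ κ x y)
    (h1 : ∀ x y, κ x y ≤ 1) (s : ℕ) (hN : 0 < Fintype.card α)
    (h2 : (2 * s - 3) * (Fintype.card α : ℝ) ^ 2 ≤ (2 * s - 1) * Z κ 2) (j : ℕ) (hj : j + 1 ≤ s) :
    0 < Z κ (j + 1) ∧
      (2 * s - 1 - 2 * j : ℝ) * (Fintype.card α * Z κ j) ≤ (2 * s - 1) * Z κ (j + 1) := by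
  have hN' : (0 : ℝ) < Fintype.card α := by exact_mod_cast hN
  induction j with
  | zero =>
    rw [Z_one, Z_zero]
    refine ⟨hN', ?_⟩
    push_cast
    linarith
  | succ j ih =>
    obtain ⟨hpos, hih⟩ := ih (by omega)
    have hsj : (j : ℝ) + 2 ≤ s := by exact_mod_cast hj
    have hZj : 0 < Z κ j := by
      rcases Nat.eq_zero_or_pos j with h | h
      · subst h; rw [Z_zero]; exact one_pos
      · by_contra hneg
        have h3 : Z κ j = 0 := le_antisymm (not_lt.mp hneg) (Z_nonneg κ h0 j)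
        have h4 := moon_moser κ hs h0 h1 j
        rw [h3, zero_mul] at h4
        have : 0 < (j + 1 : ℝ) * Z κ (j + 1) ^ 2 := by positivity
        linarith
    have key : (2 * s - 1 - 2 * (j + 1) : ℝ) * (Fintype.card α * Z κ (j + 1)) ≤
        (2 * s - 1) * Z κ (j + 2) := by
      rcases Nat.eq_zero_or_pos j with h | h
      · subst h
        rw [Z_one]
        push_cast
        nlinarith
      · have hj0 : (0 : ℝ) < j := by exact_mod_cast h
        have hmm := moon_moser κ hs h0 h1 j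
        -- divide by Z j
        have h5 : (j : ℝ) * Z κ j * ((2 * s - 1 - 2 * (j + 1) : ℝ) * (Fintype.card α * Z κ (j + 1)))
            ≤ j * Z κ j * ((2 * s - 1) * Z κ (j + 2)) := by
          have h6 : (2 * s - 1 : ℝ) * ((j + 1) * Z κ (j + 1) ^ 2) ≤
              (2 * s - 1) * (Z κ j * (Fintype.card α * Z κ (j + 1) + j * Z κ (j + 2))) :=
            mul_le_mul_of_nonneg_left hmm (by linarith)
          have h7 := mul_le_mul_of_nonneg_left hih
            (show (0 : ℝ) ≤ (j + 1) * Z κ (j + 1) by positivity)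
          nlinarith
        exact le_of_mul_le_mul_left h5 (by positivity)
    refine ⟨?_, by push_cast; exact key⟩
    have h8 : 0 < (2 * s - 1 - 2 * (j + 1) : ℝ) * (Fintype.card α * Z κ (j + 1)) := by
      have : (0 : ℝ) < 2 * s - 1 - 2 * (j + 1) := by linarith
      positivity
    have h9 : 0 < (2 * s - 1 : ℝ) * Z κ (j + 2) := lt_of_lt_of_le h8 key
    exact (pos_iff_pos_of_mul_pos h9).mp (by linarith)

theorem factorial_two_mul_eq (s : ℕ) :
    (s + s).factorial = 2 ^ s * s.factorial * ∏ i ∈ range s, (2 * i + 1) := by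
  induction s with
  | zero => simp
  | succ s ih =>
    rw [show s + 1 + (s + 1) = (s + s + 1) + 1 from by ring, Nat.factorial_succ,
      Nat.factorial_succ, ih, Nat.factorial_succ s, prod_range_succ, pow_succ]
    ring

theorem odd_prod_bound (s : ℕ) : (s + 1) ^ s ≤ 2 ^ s * ∏ i ∈ range s, (2 * i + 1) := by
  have h := Nat.factorial_mul_pow_le_factorial (m := s) (n := s)
  rw [factorial_two_mul_eq] at h
  have h2 : s.factorial * (s + 1) ^ s ≤ s.factorial * (2 ^ s * ∏ i ∈ range s, (2 * i + 1)) := by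
    calc _ ≤ _ := h
      _ = _ := by ring
  exact Nat.le_of_mul_le_mul_left h2 s.factorial_pos

theorem Z_lower (κ : α → α → ℝ) (hs : ∀ x y, κ x y = κ y x) (h0 : ∀ x y, 0 ≤ κ x y)
    (h1 : ∀ x y, κ x y ≤ 1) (s : ℕ) (hs1 : 1 ≤ s) (hN : 0 < Fintype.card α)
    (h2 : (2 * s - 3) * (Fintype.card α : ℝ) ^ 2 ≤ (2 * s - 1) * Z κ 2) :
    (Fintype.card α : ℝ) ^ s ≤ 4 ^ s * Z κ s := by
  have hN' : (0 : ℝ) < Fintype.card α := by exact_mod_cast hN
  have hs1' : (1 : ℝ) ≤ s := by exact_mod_cast hs1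
  have hstep : ∀ i : ℕ, i ≤ s → (Fintype.card α : ℝ) ^ i * ∏ j ∈ range i, (2 * s - 1 - 2 * j : ℝ) ≤
      (2 * s - 1) ^ i * Z κ i := by
    intro i
    induction i with
    | zero => intro _; simp [Z_zero]
    | succ i ih =>
      intro hi
      have h3 := ih (by omega)
      have h4 := (Z_step κ hs h0 h1 s hN h2 i hi).2
      have h5 : (0 : ℝ) < 2 * s - 1 - 2 * i := by
        have : (i : ℝ) + 1 ≤ s := by exact_mod_cast hi
        linarith
      rw [prod_range_succ, pow_succ, pow_succ]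
      calc _ = ((Fintype.card α : ℝ) ^ i * ∏ j ∈ range i, (2 * s - 1 - 2 * j : ℝ)) *
            (Fintype.card α * (2 * s - 1 - 2 * i)) := by ring
        _ ≤ ((2 * s - 1) ^ i * Z κ i) * (Fintype.card α * (2 * s - 1 - 2 * i)) :=
            mul_le_mul_of_nonneg_right h3 (by positivity)
        _ = (2 * s - 1) ^ i * ((2 * s - 1 - 2 * i) * (Fintype.card α * Z κ i)) := by ring
        _ ≤ (2 * s - 1) ^ i * ((2 * s - 1) * Z κ (i + 1)) :=
            mul_le_mul_of_nonneg_left h4 (pow_nonneg (by linarith) _)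
        _ = _ := by ring
  have h3 := hstep s le_rfl
  have h4 : ∏ j ∈ range s, (2 * s - 1 - 2 * j : ℝ) = ((∏ i ∈ range s, (2 * i + 1) : ℕ) : ℝ) := by
    rw [← prod_range_reflect]
    push_cast
    refine prod_congr rfl fun j hj => ?_
    have hj' := mem_range.mp hj
    have : ((s - 1 - j : ℕ) : ℝ) = s - 1 - j := by
      rw [Nat.cast_sub (by omega), Nat.cast_sub (by omega)]; simp
    rw [this]; ring
  have h5 : ((s : ℝ) + 1) ^ s ≤ 2 ^ s * ((∏ i ∈ range s, (2 * i + 1) : ℕ) : ℝ) := by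
    exact_mod_cast odd_prod_bound s
  have h6 : (2 * s - 1 : ℝ) ^ s ≤ 4 ^ s * ((∏ i ∈ range s, (2 * i + 1) : ℕ) : ℝ) := by
    calc (2 * s - 1 : ℝ) ^ s ≤ (2 * (s + 1)) ^ s := by
          gcongr
          · linarith
          · linarith
      _ = 2 ^ s * ((s : ℝ) + 1) ^ s := by rw [mul_pow]
      _ ≤ 2 ^ s * (2 ^ s * ((∏ i ∈ range s, (2 * i + 1) : ℕ) : ℝ)) := by gcongr
      _ = _ := by rw [← mul_assoc, ← mul_pow]; norm_num
  rw [h4] at h3
  have hp : (0 : ℝ) < (2 * s - 1) ^ s := pow_pos (by linarith) _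
  have h7 : (2 * s - 1 : ℝ) ^ s * (Fintype.card α : ℝ) ^ s ≤ (2 * s - 1) ^ s * (4 ^ s * Z κ s) := by
    calc (2 * s - 1 : ℝ) ^ s * (Fintype.card α : ℝ) ^ s ≤
          (4 ^ s * ((∏ i ∈ range s, (2 * i + 1) : ℕ) : ℝ)) * (Fintype.card α : ℝ) ^ s := by gcongr
      _ = 4 ^ s * ((Fintype.card α : ℝ) ^ s * ((∏ i ∈ range s, (2 * i + 1) : ℕ) : ℝ)) := by ring
      _ ≤ 4 ^ s * ((2 * s - 1) ^ s * Z κ s) := by gcongr
      _ = _ := by ring
  exact le_of_mul_le_mul_left h7 hp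

end Pool.Agent.W188.Tpl
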