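import Pool.Agent.W188.Tpl.Hall

/-! Consequences of suitability. -/

set_option autoImplicit false
set_option linter.unusedSectionVars false

namespace Pool.Agent.W188.Tpl

open Finset

variable {V : Type*} {k : ℕ}

/-- number of missing (edge, colour) incidences between `z` and the entries of `x` -/
def star (M : V → V → Finset (Fin k)) (z : V) {s : ℕ} (x : Fin s → V) : ℕ :=
  ∑ a, (k - (M z (x a)).card)

theorem card_le_k (M : V → V → Finset (Fin k)) (x y : V) : (M x y).card ≤ k := by
  simpa using card_le_univ (M x y)

theorem D_bound (M : V → V → Finset (Fin k)) (z : V) {s : ℕ} (x : Fin s → V) (j : ℕ) :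
    (∑ b, if (M z (x b)).card ≤ j then 1 else 0) * (k - j) ≤ star M z x := by
  unfold star
  rw [sum_mul]
  refine sum_le_sum fun b _ => ?_
  split_ifs with h
  · omega
  · simp

theorem sum_ite_le {s : ℕ} (p : Fin s → Prop) [DecidablePred p] :
    (∑ b, if p b then 1 else 0) ≤ s := by
  calc (∑ b, if p b then 1 else 0) ≤ ∑ _b : Fin s, 1 :=
        sum_le_sum fun b _ => by split_ifs <;> simp
    _ = s := by simp

theorem rbw_cons {s : ℕ} (hk : 2 * k = (s + 1) * s) (h3 : 3 ≤ k) (M : V → V → Finset (Fin k))
    (x : Fin s → V) (hx : Suit M x) (z : V) (hz : 4 * star M z x < 5 * k)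
    (hne : ∀ a, (M z (x a)).card ≠ 0) : Rbw M (Fin.cons z x : Fin (s + 1) → V) := by
  refine rbw_of_counts M (by simpa using hk) _ ?_ ?_
  · intro j hj
    rw [cnt_cons]
    have h1 := D_bound M z x j
    have h2 := hx.cnt_le j hj
    set D := ∑ b, if (M z (x b)).card ≤ j then 1 else 0 with hD
    have hD2 : D ≤ 2 := by
      by_contra hlt
      have : 3 * (k - j) ≤ D * (k - j) := Nat.mul_le_mul_right _ (by omega)
      omega
    rcases Nat.lt_or_ge j 2 with hj2 | hj2
    · rcases Nat.lt_or_ge j 1 with hj1 | hj1
      · have hj0 : j = 0 := by omega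
        subst hj0
        have : D = 0 := by
          rw [hD]
          refine sum_eq_zero fun b _ => if_neg ?_
          have := hne b
          omega
        omega
      · have hj1' : j = 1 := by omega
        subst hj1'
        have : D ≤ 1 := by
          by_contra hlt
          have : 2 * (k - 1) ≤ D * (k - 1) := Nat.mul_le_mul_right _ (by omega)
          omega
        omega
    · omega
  · intro c
    rw [miss_cons]
    have h1 := hx.miss_le c
    have h2 := sum_ite_le (fun b => c ∉ M z (x b))
    omega

theorem rbw_update {s : ℕ} (hk : 2 * k = (s + 1) * s) (M : V → V → Finset (Fin k))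
    (hM : ∀ x y, M x y = M y x)
    (x : Fin s → V) (hx : Suit M x) (z z' : V) (q : Fin s) (hz : 4 * star M z x < 5 * k)
    (hz' : 4 * star M z' x < 5 * k) (hq : (M z (x q)).card = 0) (hq' : (M z' (x q)).card = 0)
    (hne : (M z z').card ≠ 0) :
    Rbw M (Fin.cons z (Function.update x q z') : Fin (s + 1) → V) := by
  classical
  -- the other star edges have many colours
  have big : ∀ z : V, 4 * star M z x < 5 * k → (M z (x q)).card = 0 → ∀ b, b ≠ q → ∀ j, 2 * j ≤ k →
      ¬ (M z (x b)).card ≤ j := by
    intro z hz hq b hb j hj hle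
    have : (k - (M z (x b)).card) + (k - (M z (x q)).card) ≤ star M z x := by
      unfold star
      rw [← sum_pair (f := fun a => k - (M z (x a)).card) hb]
      exact sum_le_sum_of_subset (subset_univ _)
    have h2 := card_le_k M z (x b)
    omega
  refine rbw_of_counts M (by simpa using hk) _ ?_ ?_
  · intro j hj
    rw [cnt_cons]
    have h2 := hx.cnt_le j hj
    have h3 : (∑ b, if (M z (Function.update x q z' b)).card ≤ j then 1 else 0) ≤
        if (M z z').card ≤ j then 1 else 0 := by
      rw [sum_eq_single q]
      · simp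
      · intro b _ hb
        rw [Function.update_of_ne hb, if_neg (big z hz hq b hb j hj)]
      · simp
    have h4 : cnt M j (Function.update x q z') ≤ cnt M j x := by
      have := gen_update (fun a b => (M a b).card ≤ j) (fun a b h => by rw [hM]; exact h) x q z'
      unfold cnt
      refine le_trans this ?_
      have : (∑ b : Fin s, if b ≠ q ∧ (M z' (x b)).card ≤ j then 1 else 0) = 0 := by
        refine sum_eq_zero fun b _ => if_neg ?_
        rintro ⟨hb, h⟩
        exact big z' hz' hq' b hb j hj h
      rw [this, add_zero]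
    rcases Nat.eq_zero_or_pos j with h0 | h0
    · subst h0
      rw [if_neg (by omega)] at h3
      omega
    · have : (if (M z z').card ≤ j then 1 else 0) ≤ 1 := by split_ifs <;> simp
      omega
  · intro c
    rw [miss_cons]
    have h1 := hx.miss_le c
    have h2 := sum_ite_le (fun b => c ∉ M z (Function.update x q z' b))
    have h4 : miss M c (Function.update x q z') ≤ miss M c x + s := by
      have := gen_update (fun a b => c ∉ M a b) (fun a b h => by rw [hM]; exact h) x q z'
      unfold miss
      refine le_trans this (Nat.add_le_add_left ?_ _)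
      exact sum_ite_le (fun b => b ≠ q ∧ c ∉ M z' (x b))
    omega

theorem suit_inj {s : ℕ} (M : V → V → Finset (Fin k)) (hd : ∀ x, M x x = ∅) (x : Fin s → V)
    (hx : Suit M x) : Function.Injective x := by
  have h0 := hx.cnt_le 0 (by omega)
  have key : ∀ a b : Fin s, a < b → x a ≠ x b := by
    intro a b hab h
    have : 1 ≤ cnt M 0 x := by
      unfold cnt
      calc 1 = if a < b ∧ (M (x a) (x b)).card ≤ 0 then 1 else 0 := by
            rw [if_pos ⟨hab, by rw [h, hd]; simp⟩]
        _ ≤ ∑ b : Fin s, if a < b ∧ (M (x a) (x b)).card ≤ 0 then 1 else 0 :=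
            single_le_sum (f := fun b => if a < b ∧ (M (x a) (x b)).card ≤ 0 then 1 else 0)
              (fun _ _ => Nat.zero_le _) (mem_univ b)
        _ ≤ _ := single_le_sum
            (f := fun a => ∑ b : Fin s, if a < b ∧ (M (x a) (x b)).card ≤ 0 then 1 else 0)
              (fun _ _ => Nat.zero_le _) (mem_univ a)
    omega
  intro a b h
  rcases lt_trichotomy a b with hab | hab | hab
  · exact absurd h (key a b hab)
  · exact hab
  · exact absurd h.symm (key b a hab)

theorem rbw_inj {t : ℕ} (M : V → V → Finset (Fin k)) (hd : ∀ x, M x x = ∅) (v : Fin t → V)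
    (hv : Rbw M v) : Function.Injective v := by
  obtain ⟨φ, _, h⟩ := hv
  have key : ∀ a b : Fin t, a < b → v a ≠ v b := by
    intro a b hab hh
    have := h ⟨(a, b), hab⟩
    simp only [hh, hd] at this
    simp at this
  intro a b h
  rcases lt_trichotomy a b with hab | hab | hab
  · exact absurd h (key a b hab)
  · exact hab
  · exact absurd h.symm (key b a hab)

theorem star_ge {s : ℕ} (hk : 2 * k = (s + 1) * s) (h3 : 3 ≤ k) (M : V → V → Finset (Fin k))
    (hno : ∀ v : Fin (s + 1) → V, ¬ Rbw M v) (x : Fin s → V) (hx : Suit M x) (z : V) :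
    k ≤ star M z x := by
  by_contra hlt
  refine hno _ (rbw_cons hk h3 M x hx z (by omega) ?_)
  intro a ha
  have : k - (M z (x a)).card ≤ star M z x :=
    single_le_sum (f := fun a => k - (M z (x a)).card) (fun _ _ => Nat.zero_le _) (mem_univ a)
  omega

theorem exists_empty {s : ℕ} (hk : 2 * k = (s + 1) * s) (h3 : 3 ≤ k) (M : V → V → Finset (Fin k))
    (hno : ∀ v : Fin (s + 1) → V, ¬ Rbw M v) (x : Fin s → V) (hx : Suit M x) (z : V)
    (hz : 4 * star M z x < 5 * k) : ∃ q, (M z (x q)).card = 0 := by
  by_contra hne
  push Not at hne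
  exact hno _ (rbw_cons hk h3 M x hx z hz hne)

end Pool.Agent.W188.Tpl
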